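import Pool.Agent.Helper26_BSN.Rep

/-!
# Squad BSN, module FRC: forcing and `Frc`
-/

namespace Pool.Agent.BSN.H63

open Filter Cardinal Pool.Agent.BSig Pool.Agent.BSN

variable {τ : Tower}

/-- Membership in a code of a finite set of literals. -/
theorem mem_rep {S : Finset (MMt τ × Bool)} {f : MMt τ} (hf : Rep f S) {p : MMt τ × Bool} :
    Mem (lit p) f ↔ p ∈ S := by
  have h : p ∈ (S : Set (MMt τ × Bool)) ↔ p ∈ LS f := by rw [hf]
  exact h.symm

theorem frcStmt_proof (hR : RepBasics τ) (hM : MonoStmt τ) (hS : SciStmt τ) : FrcStmt τ := by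
  classical
  obtain ⟨r1, r2, r3, r4, r5, r6, r7⟩ := hR
  intro φ hφ k R r t hr
  obtain ⟨hd, hf⟩ := hM φ hφ
  constructor
  · intro h s hs hRs
    obtain ⟨e, he⟩ := r3 s
    have key : ∀ m : ℕ, ∃ α F, F ≤ α ∧ (Crd F k ∧ ¬ Cfl F F ∧ Der φ α k m F t ∧ ¬ Cfl F e) := by
      intro m
      obtain ⟨α₀, hα₀⟩ := h (max m s.card)
      have h1 : Frc φ (α₀ + e) k (max m s.card : ℕ) r t :=
        hf _ _ _ _ _ _ _ _ (le_add_right' _ _) le_rfl le_rfl hα₀
      have h2 : e ≤ pow2 (α₀ + e + 2) + r := by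
        refine le_trans ?_ (le_add_right' _ _)
        refine (lt_pow2 e).le.trans (pow2_le_pow2 ?_)
        exact (le_add_left' e α₀).trans (le_add_right' _ _)
      have h3 := h1 e h2 ⟨?_, ?_, ?_⟩
      · unfold Kil at h3
        push Not at h3
        obtain ⟨F, hF1, ⟨hF2, hF3, hF4⟩, hF5⟩ := h3
        refine ⟨α₀ + e, F, hF1, hF2, hF3, ?_, hF5⟩
        exact hd _ _ _ _ _ _ _ _ le_rfl le_rfl (natCast_le.2 (le_max_left _ _)) hF4
      · intro x _ hx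
        obtain ⟨p, rfl⟩ := r1 x
        exact (mem_rep he).2 (hRs ((mem_rep hr).1 hx))
      · exact (r6 e _).2 ⟨s, he, le_max_right _ _⟩
      · rw [r5, ← he]
        exact hs
    obtain ⟨h1, _⟩ := hS (fun v => ∃ F, F ≤ v 1 ∧ (Crd F k ∧ ¬ Cfl F F ∧
        Der φ (v 1) k (v 0) F t ∧ ¬ Cfl F e)) (by
      refine IsDelta0.ex (IsTerm.var 1) ?_
      refine (IsDelta0.crd (IsTerm.var 0) (IsTerm.param _)).and ?_
      refine (IsDelta0.cfl (IsTerm.var 0) (IsTerm.var 0)).not.and ?_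
      refine IsDelta0.and ?_ (IsDelta0.cfl (IsTerm.var 0) (IsTerm.param e)).not
      exact hφ.dern (IsTerm.var 2) (IsTerm.param _) (IsTerm.var 1) (IsTerm.var 0)
        (IsTerm.param t)) (by
      intro m m' α α' hm hα hh
      obtain ⟨F, hF1, hF2, hF3, hF4, hF5⟩ := hh
      exact ⟨F, le_trans hF1 hα, hF2, hF3, hd _ _ _ _ _ _ _ _ hα le_rfl hm hF4, hF5⟩)
    obtain ⟨y, α, hy, F, _, hF2, hF3, hF4, hF5⟩ := h1 key
    obtain ⟨S, hS1, hS2⟩ := (r6 F k).1 hF2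
    rw [r5, ← hS1] at hF3
    rw [r5, ← hS1, ← he] at hF5
    refine ⟨S, ⟨hS2, hF3, F, hS1, fun m => ⟨α, ?_⟩⟩, hF5⟩
    exact hd _ _ _ _ _ _ _ _ le_rfl le_rfl (hy m).le hF4
  · intro hF m
    by_contra hcon
    push Not at hcon
    have key : ∀ i : ℕ, ∃ (s : (MMt τ)) (S : Finset ((MMt τ) × Bool)), Rep s S ∧ S.card ≤ m ∧
        Consis (S : Set ((MMt τ) × Bool)) ∧ R ⊆ S ∧ Kil φ ((aat τ) i) k m t s := by
      intro i
      have h1 := hcon ((aat τ) i)
      unfold Frc at h1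
      push Not at h1
      obtain ⟨s, _, ⟨h2, h3, h4⟩, h5⟩ := h1
      obtain ⟨S, hS1, hS2⟩ := (r6 s m).1 h3
      rw [r5, ← hS1] at h4
      refine ⟨s, S, hS1, hS2, h4, ?_, h5⟩
      intro p hp
      have h6 : Mem (lit p) r := (mem_rep hr).2 hp
      exact (mem_rep hS1).1 (h2 _ (mem_lt h6).le h6)
    choose s S hs1 hs2 hs3 hs4 hs5 using key
    let T : Set ((MMt τ) × Bool) := {p | ∀ᶠ i in (UU : Filter ℕ), p ∈ S i}
    have hTsub : ∀ G : Finset ((MMt τ) × Bool), (G : Set ((MMt τ) × Bool)) ⊆ T →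
        ∀ᶠ i in (UU : Filter ℕ), G ⊆ S i := by
      intro G hG
      have h1 : ∀ᶠ i in (UU : Filter ℕ), ∀ p ∈ G, p ∈ S i := by
        rw [Filter.eventually_all_finset]
        exact fun p hp => hG hp
      exact h1
    have hTfin : T.Finite := by
      by_contra hinf
      obtain ⟨G, hG1, hG2⟩ := Set.Infinite.exists_subset_card_eq hinf (m + 1)
      obtain ⟨i, hi⟩ := (hTsub G hG1).exists
      have := Finset.card_le_card hi
      have := hs2 i
      omega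
    have hTS : ∀ᶠ i in (UU : Filter ℕ), hTfin.toFinset ⊆ S i := by
      apply hTsub
      rw [Set.Finite.coe_toFinset]
    have hTcon : Consis (hTfin.toFinset : Set ((MMt τ) × Bool)) := by
      obtain ⟨i, hi⟩ := hTS.exists
      rintro ⟨x, b, h1, h2⟩
      exact hs3 i ⟨x, b, hi h1, hi h2⟩
    have hRT : R ⊆ hTfin.toFinset := by
      intro p hp
      rw [Set.Finite.mem_toFinset]
      exact Eventually.of_forall fun i => hs4 i hp
    obtain ⟨F, ⟨hF1, hF2, f, hF3, hF4⟩, hF5⟩ := hF _ hTcon hRT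
    obtain ⟨α, hα⟩ := hF4 m
    obtain ⟨i₀, hi₀⟩ := exists_le_aa f
    obtain ⟨i₁, hi₁⟩ := exists_le_aa α
    have h1 : ∀ᶠ i in (UU : Filter ℕ), ∃ p ∈ F, (p.1, !p.2) ∈ S i := by
      filter_upwards [eventually_ge (max i₀ i₁)] with i hi
      have h2 := hs5 i f (hi₀ i (le_of_max_le_left hi)) ⟨(r6 f k).2 ⟨F, hF3, hF1⟩, by
        rw [r5, ← hF3]
        exact hF2, hd _ _ _ _ _ _ _ _ (hi₁ i (le_of_max_le_right hi)) le_rfl le_rfl hα⟩
      rw [r5, ← hF3, ← hs1 i] at h2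
      obtain ⟨x, b, h3, h4⟩ := h2
      exact ⟨(x, b), h3, h4⟩
    have h2 : ∃ p ∈ F, ∀ᶠ i in (UU : Filter ℕ), (p.1, !p.2) ∈ S i := by
      by_contra hc
      push Not at hc
      have h4 : ∀ᶠ i in (UU : Filter ℕ), ∀ p ∈ F, ¬ (p.1, !p.2) ∈ S i := by
        rw [Filter.eventually_all_finset]
        exact hc
      obtain ⟨i, ⟨p, hp, h5⟩, h6⟩ := (h1.and h4).exists
      exact h6 p hp h5
    obtain ⟨p, hp, h3⟩ := h2
    refine hF5 ⟨p.1, p.2, hp, ?_⟩
    rw [Set.Finite.coe_toFinset]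
    exact h3

end Pool.Agent.BSN.H63
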