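import Pool.Agent.Helper26_BSN.DerJ
import Pool.Agent.Helper26_BSN.Code

/-!
# Squad BSN, module POS: the `Σ₁(B)` enumeration of `ω`
-/

namespace Pool.Agent.BSN.H63

open Filter Cardinal Pool.Agent.BSig Pool.Agent.BSN

variable {τ : Tower}

theorem mem_pow2 (x k : MMt τ) : Mem x (pow2 k) ↔ x = k := by
  obtain ⟨f, hf, rfl⟩ := exists_mk x; obtain ⟨g, hg, rfl⟩ := exists_mk k
  rw [pow2_mk, mem_mk, mk_eq]
  refine eventually_congr (Eventually.of_forall fun n => ?_)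
  rw [Nat.testBit_two_pow]
  simp [eq_comm]

/-- Codes of binary unions. -/
theorem exists_union (a b : MMt τ) : ∃ e : MMt τ, ∀ x, Mem x e ↔ Mem x a ∨ Mem x b := by
  have hi : Int1 (fun x : MMt τ => Mem x a ∨ Mem x b) := Int1.of_delta0
    ((IsDelta0.mem (IsTerm.var 0) (IsTerm.param a)).or
      (IsDelta0.mem (IsTerm.var 0) (IsTerm.param b)))
  obtain ⟨e, _, he⟩ := hi.code (a + b)
  refine ⟨e, fun x => ?_⟩
  rw [he]
  constructor
  · exact fun h => h.2
  · intro h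
    refine ⟨?_, h⟩
    rcases h with h | h
    · exact (mem_lt h).trans_le (le_add_right' _ _)
    · exact (mem_lt h).trans_le (le_add_left' _ _)

/-- Codes of finite unions. -/
theorem exists_unions (F F' : ℕ → MMt τ) (n : ℕ) :
    ∃ e : MMt τ, ∀ x, Mem x e ↔ ∃ k ≤ n, Mem x (F k) ∨ Mem x (F' k) := by
  induction n with
  | zero =>
    obtain ⟨e, he⟩ := exists_union (F 0) (F' 0)
    refine ⟨e, fun x => ?_⟩
    rw [he]
    constructor
    · exact fun h => ⟨0, le_rfl, h⟩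
    · rintro ⟨k, hk, h⟩
      obtain rfl : k = 0 := by omega
      exact h
  | succ n ih =>
    obtain ⟨e, he⟩ := ih
    obtain ⟨e', he'⟩ := exists_union (F (n + 1)) (F' (n + 1))
    obtain ⟨c, hc⟩ := exists_union e e'
    refine ⟨c, fun x => ?_⟩
    rw [hc, he, he']
    constructor
    · rintro (⟨k, hk, h⟩ | h)
      · exact ⟨k, by omega, h⟩
      · exact ⟨n + 1, le_rfl, h⟩
    · rintro ⟨k, hk, h⟩
      rcases Nat.lt_or_ge n k with h1 | h1
      · obtain rfl : k = n + 1 := by omega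
        exact Or.inr h
      · exact Or.inl ⟨k, h1, h⟩

/-- Finite sequences are bounded. -/
theorem exists_bd (f : ℕ → MMt τ) (n : ℕ) : ∃ W : MMt τ, ∀ k ≤ n, f k ≤ W := by
  induction n with
  | zero =>
    refine ⟨f 0, fun k hk => ?_⟩
    obtain rfl : k = 0 := by omega
    exact le_rfl
  | succ n ih =>
    obtain ⟨W, hW⟩ := ih
    refine ⟨W + f (n + 1), fun k hk => ?_⟩
    rcases Nat.lt_or_ge n k with h1 | h1
    · obtain rfl : k = n + 1 := by omega
      exact le_add_left' _ _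
    · exact (hW k h1).trans (le_add_right' _ _)

theorem der_mono {φ : (Fin 5 → MMt τ) → Prop} {α α' k k' y y' F t : MMt τ} (hα : α ≤ α')
    (hk : k ≤ k') (hy : y' ≤ y) (h : Der φ α k y F t) : Der φ α' k' y' F t := by
  obtain ⟨K, h1, i, h2, P, h3, Q, h4, w, h5, h6, h7, h8, h9, h10⟩ := h
  refine ⟨K, h1.trans hα, i, h2.trans hα, P, h3.trans hα, Q, h4.trans hα, w, h5.trans hα, h6, h7,
    h8, ?_, ?_⟩
  · intro x hx hxP
    obtain ⟨z, hz, h11 | h11⟩ := h9 x hx hxP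
    · exact ⟨z, hz, Or.inl h11⟩
    · exact ⟨z, hz, Or.inr ⟨h11.1, h11.2.trans hk⟩⟩
  · intro x hx hxQ
    obtain ⟨z, hz, h11 | h11⟩ := h10 x hx hxQ
    · exact ⟨z, hz, Or.inl h11⟩
    · exact ⟨z, hz, Or.inr ⟨h11.1, hy.trans h11.2⟩⟩

theorem fact_odd {Z : Set (MMt τ)} {p : MMt τ} : Fact Z (2 * p + 1) ↔ decode p ⊆ Z := by
  constructor
  · rintro ⟨K, i, h1, rfl | rfl, h2⟩
    · rw [add_zero] at h1
      exact absurd h1.symm H92.par
    · have h3 : p = K := H92.odd_inj h1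
      subst h3
      intro x hx
      rcases h2 hx with h4 | h4
      · exact h4.2
      · exact absurd h4.1.symm PAExp.zero_ne_one'
  · intro h
    exact ⟨p, 1, rfl, Or.inr rfl, fun x hx => Or.inl ⟨rfl, h hx⟩⟩

theorem fact_even {Z : Set (MMt τ)} {p : MMt τ} : Fact Z (2 * p) ↔ decode p ⊆ Zᶜ := by
  constructor
  · rintro ⟨K, i, h1, rfl | rfl, h2⟩
    · rw [add_zero] at h1
      have h3 : p = K := H92.two_inj h1
      subst h3
      intro x hx
      rcases h2 hx with h4 | h4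
      · exact absurd h4.1 PAExp.zero_ne_one'
      · exact h4.2
    · exact absurd h1 H92.par
  · intro h
    exact ⟨p, 0, (add_zero _).symm, Or.inl rfl, fun x hx => Or.inr ⟨rfl, h hx⟩⟩

theorem pos (hU : UnbStmt τ) (hI : InfStmt τ) : PosStmt τ := by
  intro B X Y hZB hωZ hX hY
  obtain ⟨φ, hφ⟩ := H92.derJoin.1 _ _ hZB
  have hder := H92.derJoin.2 φ _ _ hφ
  obtain ⟨Φ, hΦ, hred⟩ := hωZ
  obtain ⟨φ', hφ', hΦφ⟩ := Sig1.of_isSigma hΦ
  -- certificates
  have hcert : ∀ k : (MMt τ), k ∈ omega (MMt τ) ↔ ∃ w p q : (MMt τ), φ' ![w, pow2 k, 1, p, q] ∧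
      decode p ⊆ jn X Y ∧ decode q ⊆ (jn X Y)ᶜ := by
    intro k
    have h1 : k ∈ omega (MMt τ) ↔ decode (pow2 k) ⊆ sgn (omega (MMt τ)) 1 := by
      constructor
      · intro hk x hx
        have hx' : x = k := (mem_pow2 x k).1 hx
        rw [hx']
        exact Or.inl ⟨rfl, hk⟩
      · intro h
        rcases h ((mem_pow2 k k).2 rfl : k ∈ decode (pow2 k)) with h2 | h2
        · exact h2.2
        · exact absurd h2.1.symm PAExp.zero_ne_one'
    rw [h1, hred (pow2 k) 1 (Or.inr rfl)]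
    constructor
    · rintro ⟨p, q, h2, h3, h4⟩
      obtain ⟨w, hw⟩ := (hΦφ _).1 h2
      exact ⟨w, p, q, hw, h3, h4⟩
    · rintro ⟨w, p, q, hw, h3, h4⟩
      exact ⟨p, q, (hΦφ _).2 ⟨w, hw⟩, h3, h4⟩
  -- `UnbStmt`
  have hsub : ∀ {n : ℕ} {w k p q : (Fin n → (MMt τ)) → (MMt τ)}, IsTerm w → IsTerm k → IsTerm p →
      IsTerm q → IsDelta0 (fun v => φ' ![w v, pow2 (k v), 1, p v, q v]) := by
    intro n w k p q hw hk hp hq
    refine (hφ'.subst (F := ![w, fun v => pow2 (k v), fun _ => 1, p, q]) ?_).congr fun v => ?_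
    · intro i; fin_cases i
      · exact hw
      · exact hk.pow2
      · exact IsTerm.param 1
      · exact hp
      · exact hq
    · have : (![w v, pow2 (k v), 1, p v, q v] : Fin 5 → (MMt τ)) =
          fun i => (![w, fun v => pow2 (k v), fun _ => 1, p, q] :
            Fin 5 → (Fin n → (MMt τ)) → (MMt τ)) i v := by
        funext i; fin_cases i <;> rfl
      rw [this]
  have hunb : ∀ m : ℕ, ∃ k : ℕ, ¬ ∃ w p q : (MMt τ), w ≤ (aat τ) m ∧ p ≤ (aat τ) m ∧ q ≤ (aat τ) m ∧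
      φ' ![w, pow2 (k : (MMt τ)), 1, p, q] ∧ decode p ⊆ jn X Y ∧ decode q ⊆ (jn X Y)ᶜ := by
    intro m
    have hθ : ∀ w k p q : (MMt τ), (∃ a, a ≤ pr p q ∧ ∃ b, b ≤ pr p q ∧
        (pr p q = pr a b ∧ φ' ![w, pow2 k, 1, a, b])) ↔ φ' ![w, pow2 k, 1, p, q] := by
      intro w k p q
      constructor
      · rintro ⟨a, _, b, _, h1, h2⟩
        obtain ⟨rfl, rfl⟩ := pr_inj.1 h1
        exact h2
      · intro h
        exact ⟨p, le_pr_left _ _, q, le_pr_right _ _, rfl, h⟩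
    obtain ⟨k, hk⟩ := hU X Y hX hY (fun v => ∃ a, a ≤ v 2 ∧ ∃ b, b ≤ v 2 ∧
        (v 2 = pr a b ∧ φ' ![v 0, pow2 (v 1), 1, a, b])) (by
      refine IsDelta0.ex (IsTerm.var 2) ?_
      refine IsDelta0.ex (IsTerm.var 3) ?_
      refine (IsDelta0.eq (IsTerm.var 4) (IsTerm.pr (IsTerm.var 1) (IsTerm.var 0))).and ?_
      exact hsub (IsTerm.var 2) (IsTerm.var 3) (IsTerm.var 1) (IsTerm.var 0)) (by
      intro k w p q h
      exact (hcert k).2 ⟨w, p, q, (hθ w k p q).1 h.1, h.2⟩) m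
    refine ⟨k, fun hcon => hk ?_⟩
    obtain ⟨w, p, q, h1, h2, h3, h4, h5⟩ := hcon
    exact ⟨w, p, q, h1, h2, h3, (hθ w k p q).2 h4, h5⟩
  -- the data
  have hdata : ∀ k : ℕ, ∃ (w p q F F' α y : (MMt τ)) (g : ℕ), φ' ![w, pow2 (k : (MMt τ)), 1, p, q] ∧
      Infl y ∧ Tr B F ∧ Tr B F' ∧ Der φ α g y F (2 * p + 1) ∧ Der φ α g y F' (2 * q) := by
    intro k
    obtain ⟨w, p, q, h1, h2, h3⟩ := (hcert k).1 ⟨k, rfl⟩
    obtain ⟨l, y, F, hy, hF, _, hd⟩ := (hder _).1 (fact_odd.2 h2)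
    obtain ⟨l', y', F', hy', hF', _, hd'⟩ := (hder _).1 (fact_even.2 h3)
    refine ⟨w, p, q, F, F', (aat τ) (max l l'), min y y', max l l', h1, ?_, hF, hF', ?_, ?_⟩
    · intro n
      exact lt_min (hy n) (hy' n)
    · exact der_mono (aa_mono (le_max_left _ _)) (natCast_le.2 (le_max_left _ _))
        (min_le_left _ _) hd
    · exact der_mono (aa_mono (le_max_right _ _)) (natCast_le.2 (le_max_right _ _))
        (min_le_right _ _) hd'
  choose w p q F F' α y g hw hy hF hF' hd hd' using hdata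
  obtain ⟨y0, hy0, hy0le⟩ := hI y hy
  obtain ⟨E, hE⟩ := codeStmt_proof.2.1 g
  refine ⟨fun v => ∀ k, k ≤ v 1 → ∃ w, w ≤ v 0 ∧ ∃ p, p ≤ v 0 ∧ ∃ q, q ≤ v 0 ∧ ∃ α, α ≤ v 0 ∧
    ∃ F, F ≤ v 0 ∧ ∃ F', F' ≤ v 0 ∧ ∃ g, g ≤ E ∧ (φ' ![w, pow2 k, 1, p, q] ∧ Mem (pr k g) E ∧
      Der φ α g y0 F (2 * p + 1) ∧ Der φ α g y0 F' (2 * q) ∧ (∀ x, x ≤ F → (Mem x F →
        Mem x (v 2))) ∧ ∀ x, x ≤ F' → (Mem x F' → Mem x (v 2))), ?_, fun n => ⟨?_, ?_⟩⟩
  · refine IsDelta0.all (IsTerm.var 1) ?_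
    refine IsDelta0.ex (IsTerm.var 1) ?_
    refine IsDelta0.ex (IsTerm.var 2) ?_
    refine IsDelta0.ex (IsTerm.var 3) ?_
    refine IsDelta0.ex (IsTerm.var 4) ?_
    refine IsDelta0.ex (IsTerm.var 5) ?_
    refine IsDelta0.ex (IsTerm.var 6) ?_
    refine IsDelta0.ex (IsTerm.param E) ?_
    -- variables: 0 = g, 1 = F', 2 = F, 3 = α, 4 = q, 5 = p, 6 = w, 7 = k, 8, 9, 10
    refine (hsub (IsTerm.var 6) (IsTerm.var 7) (IsTerm.var 5) (IsTerm.var 4)).and ?_
    refine (IsDelta0.mem (IsTerm.pr (IsTerm.var 7) (IsTerm.var 0)) (IsTerm.param E)).and ?_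
    refine (hφ.1.dern (IsTerm.var 3) (IsTerm.var 0) (IsTerm.param y0) (IsTerm.var 2)
      ((IsTerm.var 5).twomul.addc 1)).and ?_
    refine (hφ.1.dern (IsTerm.var 3) (IsTerm.var 0) (IsTerm.param y0) (IsTerm.var 1)
      (IsTerm.var 4).twomul).and ?_
    refine IsDelta0.and ?_ ?_
    · refine IsDelta0.all (IsTerm.var 2) ?_
      exact (IsDelta0.mem (IsTerm.var 0) (IsTerm.var 3)).imp
        (IsDelta0.mem (IsTerm.var 0) (IsTerm.var 11))
    · refine IsDelta0.all (IsTerm.var 1) ?_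
      exact (IsDelta0.mem (IsTerm.var 0) (IsTerm.var 2)).imp
        (IsDelta0.mem (IsTerm.var 0) (IsTerm.var 11))
  · rintro ⟨n, rfl⟩
    obtain ⟨G, hG⟩ := exists_unions F F' n
    obtain ⟨W, hW⟩ := exists_bd (fun k => w k + p k + q k + α k + F k + F' k) n
    refine ⟨W, G, ?_, ?_⟩
    · intro k hk
      obtain ⟨k', rfl⟩ : ∃ k' : ℕ, k = k' := by
        by_contra hc
        push Not at hc
        have h1 : Infl k := by
          by_contra h2
          obtain ⟨k', h3⟩ := not_infl_iff.1 h2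
          exact hc k' h3
        exact absurd (h1 n) (not_lt.2 hk)
      have hk' : k' ≤ n := natCast_le.1 hk
      have hWk := hW k' hk'
      have e1 : w k' ≤ W := ((((le_add_right' _ _).trans (le_add_right' _ _)).trans
        (le_add_right' _ _)).trans ((le_add_right' _ _).trans (le_add_right' _ _))).trans hWk
      have e2 : p k' ≤ W := ((((le_add_left' _ _).trans (le_add_right' _ _)).trans
        (le_add_right' _ _)).trans ((le_add_right' _ _).trans (le_add_right' _ _))).trans hWk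
      have e3 : q k' ≤ W := (((le_add_left' _ _).trans
        (le_add_right' _ _)).trans ((le_add_right' _ _).trans (le_add_right' _ _))).trans hWk
      have e4 : α k' ≤ W := ((le_add_left' _ _).trans
        ((le_add_right' _ _).trans (le_add_right' _ _))).trans hWk
      have e5 : F k' ≤ W := ((le_add_left' _ _).trans (le_add_right' _ _)).trans hWk
      have e6 : F' k' ≤ W := (le_add_left' _ _).trans hWk
      have e7 : Mem (pr (k' : (MMt τ)) (g k' : (MMt τ))) E := (hE k' (g k')).2 rfl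
      refine ⟨w k', e1, p k', e2, q k', e3, α k', e4, F k', e5, F' k', e6, g k',
        (le_pr_right _ _).trans (mem_lt e7).le, hw k', e7,
        der_mono le_rfl le_rfl (hy0le k') (hd k'), der_mono le_rfl le_rfl (hy0le k') (hd' k'),
        ?_, ?_⟩
      · intro x _ hx
        exact (hG x).2 ⟨k', hk', Or.inl hx⟩
      · intro x _ hx
        exact (hG x).2 ⟨k', hk', Or.inr hx⟩
    · intro z
      constructor
      · intro hz
        obtain ⟨k, _, h | h⟩ := (hG _).1 hz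
        · exact (hF k z).1 h
        · exact (hF' k z).1 h
      · intro hz
        obtain ⟨k, _, h | h⟩ := (hG _).1 hz
        · exact (hF k z).2 h
        · exact (hF' k z).2 h
  · rintro ⟨W, G, hψ, hG⟩
    by_contra hn
    have hinf : Infl n := by
      by_contra h1
      obtain ⟨k, rfl⟩ := not_infl_iff.1 h1
      exact hn ⟨k, rfl⟩
    obtain ⟨m, hm⟩ := exists_lt_aa W
    obtain ⟨k, hk⟩ := hunb m
    apply hk
    obtain ⟨w, hw, p, hp, q, hq, α, _, F, hF, F', hF', g', _, h1, h2, h3, h4, h5, h6⟩ :=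
      hψ k (hinf k).le
    have hg' : g' = (g k : (MMt τ)) := (hE k g').1 h2
    subst hg'
    have hfact : ∀ (F t : (MMt τ)), Der φ α (g k : (MMt τ)) y0 F t → (∀ x, x ≤ F → (Mem x F → Mem x G)) →
        Fact (jn X Y) t := by
      intro F t hDer hFG
      obtain ⟨l₁, hl₁⟩ := exists_le_aa F
      obtain ⟨l₂, hl₂⟩ := exists_le_aa α
      refine (hder t).2 ⟨l₁ + l₂ + g k, y0, F, hy0, ?_, hl₁ _ (by omega), ?_⟩
      · intro z
        exact ⟨fun hz => (hG z).1 (hFG _ (mem_lt hz).le hz),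
          fun hz => (hG z).2 (hFG _ (mem_lt hz).le hz)⟩
      · exact der_mono (hl₂ _ (by omega)) (natCast_le.2 (by omega)) le_rfl hDer
    exact ⟨w, p, q, hw.trans hm.le, hp.trans hm.le, hq.trans hm.le, h1,
      fact_odd.1 (hfact F _ h3 h5), fact_even.1 (hfact F' _ h4 h6)⟩

end Pool.Agent.BSN.H63
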